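import Mathlib.Algebra.Group.WithOne.Defs
import Mathlib.Algebra.Group.Subsemigroup.Operations
import Mathlib.Data.Fintype.Card
import Mathlib.Tactic

set_option autoImplicit false

/-!
# Finite J-height is not inherited by bi-ideals, not even by two-sided ideals

`S` is the semigroup of the upper triangular `2 × 2` matrix units over the bicyclic monoid, with a
zero. It has four J-classes. The matrix units in the second column and zero form an ideal, in which
the J-order of the units `e₁₂ t` is the R-order of the bicyclic monoid.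
-/

namespace Pool.Agent.Results.MP_92d133_al.IdealInfiniteHeight

/-- `a ≤ b` in the J-preorder of the semigroup `T`: `a` lies in `T¹ b T¹` -/
def LEJ {T : Type*} [Semigroup T] (a b : T) : Prop :=
  ∃ u v : WithOne T, (a : WithOne T) = u * b * v

/-- the J-class of `a` is strictly below the J-class of `b` -/
def LTJ {T : Type*} [Semigroup T] (a b : T) : Prop := LEJ a b ∧ ¬ LEJ b a

/-- `T` has finite J-height: the lengths of the strictly descending sequences of J-classes are
bounded -/
def FiniteJHeight (T : Type*) [Semigroup T] : Prop :=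
  ∃ N : ℕ, ∀ (n : ℕ) (x : Fin n → T), (∀ i j, i < j → LTJ (x j) (x i)) → n ≤ N

/-- the bicyclic monoid: `(a, b)` stands for `q ^ a * p ^ b`, where `p * q = 1` -/
@[ext] structure Bic where
  a : ℕ
  b : ℕ

instance : Semigroup Bic where
  mul x y := ⟨x.a + (y.a - x.b), y.b + (x.b - y.a)⟩
  mul_assoc := by
    rintro ⟨a, b⟩ ⟨c, d⟩ ⟨e, f⟩
    show (Bic.mk (a + (c - b) + (e - (d + (b - c)))) (f + (d + (b - c) - e))) =
      Bic.mk (a + (c + (e - d) - b)) (f + (d - e) + (b - (c + (e - d))))
    congr 1 <;> omega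

theorem bic_mul (x y : Bic) : x * y = ⟨x.a + (y.a - x.b), y.b + (x.b - y.a)⟩ := rfl

/-- the bicyclic monoid is simple -/
theorem bic_simple (x y : Bic) : ∃ s t : Bic, y = s * x * t := by
  refine ⟨⟨y.a, x.a⟩, ⟨x.b, y.b⟩, ?_⟩
  simp only [bic_mul]
  ext <;> simp

/-- the semigroup: zero and the matrix units `e₁₁ t`, `e₁₂ t`, `e₂₂ t` -/
inductive Tri
  | z : Tri
  | l : Bic → Tri
  | m : Bic → Tri
  | r : Bic → Tri

open Tri

/-- the product of matrix units -/
def tmul : Tri → Tri → Tri
  | l s, l t => l (s * t)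
  | l s, m t => m (s * t)
  | m s, r t => m (s * t)
  | r s, r t => r (s * t)
  | _, _ => z

instance : Semigroup Tri where
  mul := tmul
  mul_assoc := by
    intro x y w
    show tmul (tmul x y) w = tmul x (tmul y w)
    cases x <;> cases y <;> cases w <;> simp [tmul, mul_assoc]

theorem tmul_def (x y : Tri) : x * y = tmul x y := rfl

theorem wo_cases {T : Type*} (u : WithOne T) : u = 1 ∨ ∃ t : T, u = t := by
  induction u using WithOne.cases_on with
  | _ => simp

/-- `a ≤ b` spelled out -/
theorem lej_iff {T : Type*} [Semigroup T] (a b : T) : LEJ a b ↔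
    a = b ∨ (∃ v, a = b * v) ∨ (∃ u, a = u * b) ∨ ∃ u v, a = u * b * v := by
  constructor
  · rintro ⟨u, v, h⟩
    obtain rfl | ⟨u, rfl⟩ := wo_cases u <;> obtain rfl | ⟨v, rfl⟩ := wo_cases v
    · left; simpa using h
    · right; left; exact ⟨v, WithOne.coe_injective (by simpa using h)⟩
    · right; right; left; exact ⟨u, WithOne.coe_injective (by simpa using h)⟩
    · right; right; right; exact ⟨u, v, WithOne.coe_injective (by simpa using h)⟩
  · rintro (rfl | ⟨v, rfl⟩ | ⟨u, rfl⟩ | ⟨u, v, rfl⟩)
    · exact ⟨1, 1, by simp⟩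
    · exact ⟨1, v, by simp⟩
    · exact ⟨u, 1, by simp⟩
    · exact ⟨u, v, by simp⟩

/-- the level of an element -/
def lev : Tri → ℕ
  | z => 0
  | l _ => 2
  | m _ => 1
  | r _ => 2

theorem lev_lt (x : Tri) : lev x < 3 := by cases x <;> simp [lev]

/-- all the elements of one kind are J-equivalent, and the kind can only go down -/
theorem lev_anti {x y : Tri} (h : LTJ x y) : lev x < lev y := by
  obtain ⟨h1, h2⟩ := h
  have hl : ∀ s t, LEJ (l s) (l t) := fun s t => by
    obtain ⟨a, b, h⟩ := bic_simple t s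
    exact (lej_iff _ _).mpr (Or.inr (Or.inr (Or.inr ⟨l a, l b, by rw [h]; rfl⟩)))
  have hr : ∀ s t, LEJ (r s) (r t) := fun s t => by
    obtain ⟨a, b, h⟩ := bic_simple t s
    exact (lej_iff _ _).mpr (Or.inr (Or.inr (Or.inr ⟨r a, r b, by rw [h]; rfl⟩)))
  have hm : ∀ s t, LEJ (m s) (m t) := fun s t => by
    obtain ⟨a, b, h⟩ := bic_simple t s
    exact (lej_iff _ _).mpr (Or.inr (Or.inr (Or.inr ⟨l a, r b, by rw [h]; rfl⟩)))
  have hz : LEJ z z := (lej_iff _ _).mpr (Or.inl rfl)
  rw [lej_iff] at h1
  rcases h1 with rfl | ⟨v, rfl⟩ | ⟨u, rfl⟩ | ⟨u, v, rfl⟩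
  · exact absurd ((lej_iff _ _).mpr (Or.inl rfl)) h2
  · cases y <;> cases v <;> simp_all [tmul_def, tmul, lev]
  · cases y <;> cases u <;> simp_all [tmul_def, tmul, lev]
  · cases y <;> cases u <;> cases v <;> simp_all [tmul_def, tmul, lev]

theorem tri_finite (n : ℕ) (x : Fin n → Tri) (hx : ∀ i j, i < j → LTJ (x j) (x i)) : n ≤ 3 := by
  have hinj : Function.Injective fun i : Fin n => (⟨lev (x i), lev_lt _⟩ : Fin 3) := by
    intro i j hij
    have hij' : lev (x i) = lev (x j) := congrArg Fin.val hij
    rcases lt_trichotomy i j with h | h | h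
    · have := lev_anti (hx i j h); omega
    · exact h
    · have := lev_anti (hx j i h); omega
  simpa using Fintype.card_le_of_injective _ hinj

/-- the ideal -/
def B : Subsemigroup Tri where
  carrier := {x | ∀ t, x ≠ l t}
  mul_mem' := by
    intro x y hx hy t
    cases x <;> cases y <;> simp_all [tmul_def, tmul]

/-- the descending sequence -/
def seq (i : ℕ) : B := ⟨m ⟨i, 0⟩, fun t => by simp⟩

theorem seq_succ (i k : ℕ) : seq (i + (k + 1)) = seq i * ⟨r ⟨k + 1, 0⟩, fun t => by simp⟩ := by
  apply Subtype.ext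
  show m ⟨i + (k + 1), 0⟩ = m (⟨i, 0⟩ * ⟨k + 1, 0⟩)
  rw [bic_mul]
  simp

theorem seq_lt {i j : ℕ} (hij : i < j) : LTJ (seq j) (seq i) := by
  obtain ⟨k, rfl⟩ : ∃ k, j = i + (k + 1) := ⟨j - i - 1, by omega⟩
  constructor
  · exact (lej_iff _ _).mpr (Or.inr (Or.inl ⟨_, seq_succ i k⟩))
  · intro h
    rw [lej_iff] at h
    rcases h with h | ⟨⟨v, hv⟩, h⟩ | ⟨⟨u, hu⟩, h⟩ | ⟨⟨u, hu⟩, ⟨v, hv⟩, h⟩
    · have := congrArg Subtype.val h
      simp only [seq, m.injEq, Bic.mk.injEq] at this
      omega
    · have := congrArg Subtype.val h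
      cases v with
      | z => simp [seq, tmul_def, tmul] at this
      | l t => exact hv t rfl
      | m t => simp [seq, tmul_def, tmul] at this
      | r t =>
        have h2 : m ⟨i, 0⟩ = m (⟨i + (k + 1), 0⟩ * t) := this
        rw [m.injEq, bic_mul, Bic.mk.injEq] at h2
        have h3 := h2.1
        simp only at h3
        omega
    · have := congrArg Subtype.val h
      cases u with
      | z => simp [seq, tmul_def, tmul] at this
      | l t => exact hu t rfl
      | m t => simp [seq, tmul_def, tmul] at this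
      | r t => simp [seq, tmul_def, tmul] at this
    · have := congrArg Subtype.val h
      cases u with
      | z => cases v <;> simp [seq, tmul_def, tmul] at this
      | l t => exact hu t rfl
      | m t => cases v <;> simp [seq, tmul_def, tmul] at this
      | r t => cases v <;> simp [seq, tmul_def, tmul] at this

/-- **Finite J-height is not inherited by bi-ideals.** There are a semigroup `S` of finite J-height
(all strict chains of J-classes have at most three members) and a nonempty two-sided ideal `B` of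
`S`, which is thus a bi-ideal, such that the semigroup `B` has infinite J-height. -/
theorem result : ∃ (S : Type) (_ : Semigroup S) (B : Subsemigroup S),
    FiniteJHeight S ∧ (∃ b, b ∈ B) ∧ (∀ b ∈ B, ∀ s : S, ∀ b' ∈ B, b * s * b' ∈ B) ∧
    (∀ b ∈ B, ∀ s : S, s * b ∈ B ∧ b * s ∈ B) ∧ ¬ FiniteJHeight B := by
  have hB : ∀ b ∈ B, ∀ s : Tri, s * b ∈ B ∧ b * s ∈ B := by
    intro b hb s
    constructor
    · intro t
      cases b <;> cases s <;> simp_all [tmul_def, tmul]
      exact absurd rfl (hb _)
    · intro t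
      cases b <;> cases s <;> simp_all [tmul_def, tmul]
      exact absurd rfl (hb _)
  refine ⟨Tri, inferInstance, B, ⟨3, tri_finite⟩, ⟨z, fun t => by simp⟩,
    fun b hb s b' hb' => (hB b' hb' _).1, hB, ?_⟩
  rintro ⟨N, hN⟩
  have := hN (N + 1) (fun i => seq i.val) fun i j hij => seq_lt hij
  omega

end Pool.Agent.Results.MP_92d133_al.IdealInfiniteHeight
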